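import Pool.Agent.K7.H65.SP.Main

set_option autoImplicit false

/-!
# The Schrijver number of the strong square of the acute-angle graph (MP_b1e97f_co, Q1: disproof)

`acute n` is the graph `G_n` with vertex set `{±1}ⁿ` (`Fin n → ℤˣ`), two distinct points being adjacent
if their inner product is positive; `strongProd` is the strong product of graphs; `schrijver G` is the
Schrijver number: the supremum of the sums of the entries of the positive semidefinite matrices with
nonnegative entries and trace one which vanish at the edges of `G` (`Feasible G`). All definitions are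
in `Pool/Agent/K7/H65/SP/Main.lean`.

The Schrijver number of `G_n ⊠ G_n` is not bounded by a power of `n`: it is larger than `n ^ C` for all
sufficiently large `n`, for every real number `C`.

Proof. The matrix `X` is a function of the pair of products `(u₁ v₁, u₂ v₂)`, given by its Fourier
coefficients `A + ∑ w_i κ_k(s_i) κ_l(t_i)` at the pairs of characters of sizes `k`, `l`, where `κ_k(s)`
is the normalised Krawtchouk polynomial of degree `k` at the level `s` and the `w_i` form a probability
distribution. The entries are nonnegative and vanish at the edges if `s_i ≤ 0` or `t_i ≤ 0` for all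
`i`, and the ratio of the sum of the entries and the trace is `1 + 1 / A`. We take `s_i ∼ g_i √n`,
`t_i ∼ h_i √n`; then `n ^ ((k + l) / 2) κ_k(s_i) κ_l(t_i)` tends to `He_k(g_i) He_l(h_i)` (Hermite
polynomials), and `κ_k = O(n ^ (-(m + 1) / 2))` uniformly for `m < k < n - m`. So
`A = O(n ^ (-(m + 1) / 2))` is possible as soon as there is a finitely supported probability measure on
the union `{g ≤ 0} ∪ {h ≤ 0}` of three quadrants all of whose Hermite moments `E He_k(g) He_l(h)`,
`k, l ≤ m`, `(k, l) ≠ (0, 0)`, are positive. If there were none, then by separation a nonzero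
combination `F` of the `He_k(g) He_l(h)` with nonnegative coefficients would be `≤ 0` on the three
quadrants; but for `(g, h) = (ε t ^ (m + 1), δ t)`, `t → ∞`, the sign of `F` is that of `ε ^ k δ ^ l`
for one and the same pair `(k, l)`, which cannot be `≤ 0` for all of `(-1, 1)`, `(1, -1)`, `(-1, -1)`.
-/

namespace Pool.Agent.Results.MP_b1e97f_co.Superpolynomial

open Filter Pool.Agent.K7.H65.SP

/-- The Schrijver number `ϑ'(G_n ⊠ G_n)` is not bounded by a power of `n`; for every real `C` it is
larger than `n ^ C` for all sufficiently large `n`. -/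
theorem result :
    (¬ ∃ C : ℝ, 0 < C ∧ ∀ n : ℕ, 2 ≤ n →
      schrijver (strongProd (acute n) (acute n)) ≤ (n : ℝ) ^ C) ∧
    ∀ C : ℝ, ∀ᶠ n : ℕ in atTop, (n : ℝ) ^ C < schrijver (strongProd (acute n) (acute n)) := by
  have h : ∀ C : ℝ, ∀ᶠ n : ℕ in atTop,
      (n : ℝ) ^ C < schrijver (strongProd (acute n) (acute n)) := by
    intro C
    filter_upwards [superpolynomial ⌈C⌉₊, eventually_ge_atTop 1] with n hn hn1
    refine lt_of_le_of_lt ?_ hn
    rw [← Real.rpow_natCast]
    exact Real.rpow_le_rpow_of_exponent_le (by exact_mod_cast hn1) (Nat.le_ceil C)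
  refine ⟨?_, h⟩
  rintro ⟨C, _, hC⟩
  obtain ⟨n, hn1, hn2⟩ := ((h C).and (eventually_ge_atTop 2)).exists
  exact absurd (hC n hn2) (not_le.2 hn1)

end Pool.Agent.Results.MP_b1e97f_co.Superpolynomial
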